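import Pool.Agent.W540.BE.Freq
import Pool.Agent.W529.ST.Wrap

/-! Means over the primes of functions of Frobenius elements. -/

set_option autoImplicit false

namespace Pool.Agent.R386.JL

open Filter Topology NumberField IsDedekindDomain
open Pool.Agent.W529.ST (mean mean_def)
open Pool.Agent.W401.Cheb (GK IsFrob)
open Pool.Agent.W540.BE (upto mem_upto cheb_mean)

section
variable {K : Type} [Field K] [NumberField K]

theorem mean_upto (φ : HeightOneSpectrum (𝓞 K) → ℝ) (N : ℕ) :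
    mean K φ N = (∑ v ∈ upto K N, φ v) / ((upto K N).card : ℝ) := by
  obtain ⟨t, ht, _, h⟩ := mean_def (F := K) φ N
  have h1 : t = upto K N := by
    ext v
    rw [ht, mem_upto]
    rfl
  rw [h, h1]

theorem mean_add (φ ψ : HeightOneSpectrum (𝓞 K) → ℝ) (N : ℕ) :
    mean K (fun v => φ v + ψ v) N = mean K φ N + mean K ψ N := by
  rw [mean_upto, mean_upto, mean_upto, Finset.sum_add_distrib, add_div]

theorem mean_sub' (φ ψ : HeightOneSpectrum (𝓞 K) → ℝ) (N : ℕ) :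
    mean K (fun v => φ v - ψ v) N = mean K φ N - mean K ψ N := by
  rw [mean_upto, mean_upto, mean_upto, Finset.sum_sub_distrib, sub_div]

theorem mean_mul (c : ℝ) (φ : HeightOneSpectrum (𝓞 K) → ℝ) (N : ℕ) :
    mean K (fun v => c * φ v) N = c * mean K φ N := by
  rw [mean_upto, mean_upto, ← Finset.mul_sum, mul_div_assoc]

theorem mean_sum {ι : Type*} (s : Finset ι) (φ : ι → HeightOneSpectrum (𝓞 K) → ℝ) (N : ℕ) :
    mean K (fun v => ∑ i ∈ s, φ i v) N = ∑ i ∈ s, mean K (φ i) N := by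
  simp_rw [mean_upto]
  rw [Finset.sum_comm, Finset.sum_div]

theorem mean_mono {φ ψ : HeightOneSpectrum (𝓞 K) → ℝ} (h : ∀ v, φ v ≤ ψ v) (N : ℕ) :
    mean K φ N ≤ mean K ψ N := by
  rw [mean_upto, mean_upto]
  exact div_le_div_of_nonneg_right (Finset.sum_le_sum fun v _ => h v) (Nat.cast_nonneg _)

theorem mean_abs (φ : HeightOneSpectrum (𝓞 K) → ℝ) {δ : ℝ} (hδ : 0 ≤ δ) (h : ∀ v, |φ v| ≤ δ)
    (N : ℕ) : |mean K φ N| ≤ δ := by
  rw [mean_upto, abs_div, Nat.abs_cast]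
  rcases Nat.eq_zero_or_pos (upto K N).card with h0 | h0
  · rw [h0, Nat.cast_zero, div_zero]
    exact hδ
  · have h0' : (0 : ℝ) < (upto K N).card := by exact_mod_cast h0
    rw [div_le_iff₀ h0']
    refine (Finset.abs_sum_le_sum_abs _ _).trans ((Finset.sum_le_sum fun v _ => h v).trans ?_)
    rw [Finset.sum_const, nsmul_eq_mul, mul_comm]

/-- Cauchy's inequality -/
theorem mean_cs (φ ψ : HeightOneSpectrum (𝓞 K) → ℝ) (N : ℕ) :
    mean K (fun v => φ v * ψ v) N ^ 2 ≤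
      mean K (fun v => φ v ^ 2) N * mean K (fun v => ψ v ^ 2) N := by
  rw [mean_upto, mean_upto, mean_upto, div_pow, div_mul_div_comm, ← pow_two]
  exact div_le_div_of_nonneg_right (Finset.sum_mul_sq_le_sq_mul_sq _ _ _) (by positivity)

theorem frob_mean {Γ : Type} [Group Γ] [Fintype Γ] (r : GK K →* Γ) (hr : Function.Surjective r)
    (ho : IsOpen (r.ker : Set (GK K))) (ψ : Γ → ℝ) (hψ : ∀ a g, ψ (g * a * g⁻¹) = ψ a)
    (σ : HeightOneSpectrum (𝓞 K) → GK K) (hσ : ∀ v, IsFrob v (σ v)) :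
    Tendsto (mean K fun v => ψ (r (σ v))) atTop (𝓝 ((∑ γ, ψ γ) / (Fintype.card Γ : ℝ))) := by
  classical
  let e := QuotientGroup.quotientKerEquivOfSurjective r hr
  have hfin : Finite (GK K ⧸ r.ker) := Finite.of_equiv _ e.toEquiv.symm
  let _ : Fintype (GK K ⧸ r.ker) := Fintype.ofFinite _
  have hcard : Nat.card (GK K ⧸ r.ker) = Fintype.card Γ := by
    rw [Nat.card_congr e.toEquiv, Nat.card_eq_fintype_card]
  have hc0 : (Fintype.card Γ : ℝ) ≠ 0 := by
    have : 0 < Fintype.card Γ := Fintype.card_pos_iff.2 ⟨1⟩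
    positivity
  have key : ∀ χ : Γ → ℝ, (∀ a g, χ (g * a * g⁻¹) = χ a) →
      Tendsto (fun n : ℕ => (∑ v ∈ upto K n, χ (r (σ v))) / (Nat.primeCounting n : ℝ)) atTop
        (𝓝 ((∑ γ, χ γ) / (Fintype.card Γ : ℝ))) := by
    intro χ hχ
    have h1 := cheb_mean r.ker ho (fun q => ((χ (e q) : ℝ) : ℂ)) (fun a g => by
      rw [map_mul, map_mul, map_inv, hχ]) σ hσ
    have h2 := (Complex.continuous_re.tendsto _).comp h1
    have e1 : ((Nat.card (GK K ⧸ r.ker) : ℂ)⁻¹ * ∑ᶠ q, ((χ (e q) : ℝ) : ℂ)).re =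
        (∑ γ, χ γ) / (Fintype.card Γ : ℝ) := by
      rw [finsum_eq_sum_of_fintype, ← Complex.ofReal_sum, hcard]
      have e2 : (Fintype.card Γ : ℂ)⁻¹ * (((∑ q, χ (e q)) : ℝ) : ℂ) =
          (((∑ q, χ (e q)) / (Fintype.card Γ : ℝ) : ℝ) : ℂ) := by
        push_cast
        rw [div_eq_mul_inv, mul_comm]
      rw [e2, Complex.ofReal_re]
      congr 1
      exact Fintype.sum_equiv e.toEquiv _ _ fun q => rfl
    rw [e1] at h2
    refine h2.congr fun n => ?_
    simp only [Function.comp_apply]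
    have e3 : (∑ v ∈ upto K n, ((χ (e (QuotientGroup.mk (σ v))) : ℝ) : ℂ)) /
        (Nat.primeCounting n : ℂ) =
        (((∑ v ∈ upto K n, χ (r (σ v))) / (Nat.primeCounting n : ℝ) : ℝ) : ℂ) := by
      push_cast
      rfl
    rw [e3, Complex.ofReal_re]
  have h1 := key ψ hψ
  have h2 := key (fun _ => 1) (fun _ _ => rfl)
  have e1 : (∑ _γ : Γ, (1 : ℝ)) / (Fintype.card Γ : ℝ) = 1 := by
    rw [Finset.sum_const, Finset.card_univ, nsmul_eq_mul, mul_one, div_self hc0]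
  rw [e1] at h2
  have h3 := h1.div h2 one_ne_zero
  rw [div_one] at h3
  refine h3.congr' ?_
  filter_upwards [eventually_ge_atTop 2] with n hn
  rw [mean_upto, Pi.div_apply, Finset.sum_const, nsmul_eq_mul, mul_one]
  have h4 : (0 : ℝ) < Nat.primeCounting n := by
    have : 0 < Nat.primeCounting n := by
      rw [Nat.primeCounting, Nat.primeCounting', Nat.count_eq_card_filter_range, Finset.card_pos]
      exact ⟨2, by simp; exact ⟨by omega, Nat.prime_two⟩⟩
    exact_mod_cast this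
  rw [div_div_div_cancel_right₀ h4.ne']

theorem frob_pair {Γ Δ : Type} [Group Γ] [Fintype Γ] [Group Δ] [Fintype Δ] (r : GK K →* Γ)
    (s : GK K →* Δ) (hrs : Function.Surjective (r.prod s))
    (hr : IsOpen (r.ker : Set (GK K))) (hs : IsOpen (s.ker : Set (GK K))) (ψ : Γ → ℝ)
    (hψ : ∀ a g, ψ (g * a * g⁻¹) = ψ a) (χ : Δ → ℝ) (hχ : ∀ a g, χ (g * a * g⁻¹) = χ a)
    (σ : HeightOneSpectrum (𝓞 K) → GK K) (hσ : ∀ v, IsFrob v (σ v)) :
    Tendsto (mean K fun v => ψ (r (σ v)) * χ (s (σ v))) atTop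
      (𝓝 ((∑ γ, ψ γ) / (Fintype.card Γ : ℝ) * ((∑ δ, χ δ) / (Fintype.card Δ : ℝ)))) := by
  have ho : IsOpen ((r.prod s).ker : Set (GK K)) := by
    have : ((r.prod s).ker : Set (GK K)) = (r.ker : Set (GK K)) ∩ (s.ker : Set (GK K)) := by
      ext g
      simp [MonoidHom.mem_ker, Prod.ext_iff]
    rw [this]
    exact hr.inter hs
  have h1 := frob_mean (r.prod s) hrs ho (fun p => ψ p.1 * χ p.2) (fun a g => by
    simp only [Prod.fst_mul, Prod.snd_mul, Prod.fst_inv, Prod.snd_inv]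
    rw [hψ, hχ]) σ hσ
  have e1 : (∑ p : Γ × Δ, ψ p.1 * χ p.2) / (Fintype.card (Γ × Δ) : ℝ) =
      (∑ γ, ψ γ) / (Fintype.card Γ : ℝ) * ((∑ δ, χ δ) / (Fintype.card Δ : ℝ)) := by
    rw [Fintype.card_prod, Nat.cast_mul, div_mul_div_comm, Fintype.sum_mul_sum,
      ← Fintype.sum_prod_type']
  rw [e1] at h1
  exact h1

end

end Pool.Agent.R386.JL
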