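import Pool.Agent.R386.JL.Cheb

/-! Almost independence of the Frobenius elements of linearly disjoint fields. -/

set_option autoImplicit false

namespace Pool.Agent.R386.JL

open Filter Topology NumberField IsDedekindDomain
open Pool.Agent.W529.ST (mean mean_def)
open Pool.Agent.W401.Cheb (GK IsFrob)

section
variable {K : Type} [Field K] [NumberField K]

/-- invariant under conjugation -/
def Inv {Γ : Type} [Group Γ] (A : Set Γ) : Prop := ∀ a g, g * a * g⁻¹ ∈ A ↔ a ∈ A

open Classical in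
/-- the centred indicator of `A` -/
noncomputable def cen {Γ : Type} [Group Γ] [Fintype Γ] (A : Set Γ) (γ : Γ) : ℝ :=
  (if γ ∈ A then 1 else 0) - (∑ δ, (if δ ∈ A then (1 : ℝ) else 0)) / (Fintype.card Γ : ℝ)

theorem cen_conj {Γ : Type} [Group Γ] [Fintype Γ] {A : Set Γ} (hA : Inv A) (a g : Γ) :
    cen A (g * a * g⁻¹) = cen A a := by
  classical
  unfold cen
  congr 1
  by_cases h : a ∈ A
  · rw [if_pos h, if_pos ((hA a g).2 h)]
  · rw [if_neg h, if_neg (fun h' => h ((hA a g).1 h'))]

theorem card_pos' (Γ : Type) [Group Γ] [Fintype Γ] : (0 : ℝ) < Fintype.card Γ := by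
  exact_mod_cast (Fintype.card_pos_iff.2 ⟨1⟩ : 0 < Fintype.card Γ)

theorem cen_sum {Γ : Type} [Group Γ] [Fintype Γ] (A : Set Γ) : ∑ γ, cen A γ = 0 := by
  classical
  unfold cen
  rw [Finset.sum_sub_distrib, Finset.sum_const, Finset.card_univ, nsmul_eq_mul,
    mul_div_cancel₀ _ (card_pos' Γ).ne', sub_self]

theorem cen_sq {Γ : Type} [Group Γ] [Fintype Γ] (A : Set Γ) :
    (∑ γ, cen A γ ^ 2) / (Fintype.card Γ : ℝ) ≤ 1 / 4 := by
  classical
  have hc := card_pos' Γ
  set P : ℝ := (∑ δ, (if δ ∈ A then (1 : ℝ) else 0)) / (Fintype.card Γ : ℝ) with hP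
  have h1 : ∀ γ : Γ, cen A γ ^ 2 = (if γ ∈ A then (1 : ℝ) else 0) * (1 - 2 * P) + P ^ 2 := by
    intro γ
    unfold cen
    rw [← hP]
    split_ifs <;> ring
  have h2 : ∑ γ, cen A γ ^ 2 = (∑ δ, (if δ ∈ A then (1 : ℝ) else 0)) * (1 - 2 * P) +
      (Fintype.card Γ : ℝ) * P ^ 2 := by
    simp_rw [h1]
    rw [Finset.sum_add_distrib, ← Finset.sum_mul, Finset.sum_const, Finset.card_univ,
      nsmul_eq_mul]
  have h3 : (∑ δ, (if δ ∈ A then (1 : ℝ) else 0)) = P * (Fintype.card Γ : ℝ) := by
    rw [hP, div_mul_cancel₀ _ hc.ne']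
  rw [h2, h3, div_le_iff₀ hc]
  nlinarith [sq_nonneg (P - 1 / 2)]

theorem cen_abs {Γ : Type} [Group Γ] [Fintype Γ] (A : Set Γ) (γ : Γ) : |cen A γ| ≤ 1 := by
  classical
  have hc := card_pos' Γ
  have h0 : 0 ≤ (∑ δ, (if δ ∈ A then (1 : ℝ) else 0)) / (Fintype.card Γ : ℝ) :=
    div_nonneg (Finset.sum_nonneg fun δ _ => by split_ifs <;> norm_num) hc.le
  have h1 : (∑ δ, (if δ ∈ A then (1 : ℝ) else 0)) / (Fintype.card Γ : ℝ) ≤ 1 := by
    rw [div_le_one hc]
    refine (Finset.sum_le_sum (g := fun _ => (1 : ℝ)) fun δ _ => by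
      split_ifs <;> norm_num).trans ?_
    rw [Finset.sum_const, Finset.card_univ, nsmul_eq_mul, mul_one]
  unfold cen
  rw [abs_le]
  split_ifs <;> constructor <;> linarith

/-- Bessel's inequality for nearly orthogonal functions -/
theorem bessel {κ : Type} [Fintype κ] (u : κ → HeightOneSpectrum (𝓞 K) → ℝ)
    (g : HeightOneSpectrum (𝓞 K) → ℝ) {M : ℝ} (hM : 0 ≤ M) (hg : ∀ v, |g v| ≤ M) (N : ℕ)
    (hd : ∀ k, mean K (fun v => u k v ^ 2) N ≤ 3 / 8)
    (ho : ∀ k l, k ≠ l → |mean K (fun v => u k v * u l v) N| ≤ 1 / (8 * (Fintype.card κ + 1))) :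
    ∑ k, mean K (fun v => g v * u k v) N ^ 2 ≤ M ^ 2 / 2 := by
  classical
  set c : κ → ℝ := fun k => mean K (fun v => g v * u k v) N with hc
  set δ : ℝ := 1 / (8 * (Fintype.card κ + 1)) with hδ
  have hδ0 : 0 < δ := by positivity
  have hδ1 : δ * Fintype.card κ ≤ 1 / 8 := by
    rw [hδ, div_mul_eq_mul_div, div_le_div_iff₀ (by positivity) (by norm_num)]
    have : (0 : ℝ) ≤ Fintype.card κ := Nat.cast_nonneg _
    linarith
  set S : HeightOneSpectrum (𝓞 K) → ℝ := fun v => ∑ k, c k * u k v with hS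
  set Q : ℝ := ∑ k, c k ^ 2 with hQ
  have hQ0 : 0 ≤ Q := Finset.sum_nonneg fun k _ => sq_nonneg _
  have h1 : mean K (fun v => g v * S v) N = Q := by
    have e1 : (fun v => g v * S v) = fun v => ∑ k, c k * (g v * u k v) := by
      funext v
      rw [hS, Finset.mul_sum]
      refine Finset.sum_congr rfl fun k _ => ?_
      ring
    rw [e1, mean_sum]
    refine Finset.sum_congr rfl fun k _ => ?_
    rw [mean_mul, pow_two]
  have h2 : mean K (fun v => S v ^ 2) N = ∑ k, ∑ l, c k * c l *
      mean K (fun v => u k v * u l v) N := by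
    have e1 : (fun v => S v ^ 2) = fun v => ∑ k, ∑ l, c k * c l * (u k v * u l v) := by
      funext v
      rw [hS, pow_two, Finset.sum_mul_sum]
      refine Finset.sum_congr rfl fun k _ => Finset.sum_congr rfl fun l _ => ?_
      ring
    rw [e1, mean_sum]
    refine Finset.sum_congr rfl fun k _ => ?_
    rw [mean_sum]
    refine Finset.sum_congr rfl fun l _ => ?_
    rw [mean_mul]
  have h3 : mean K (fun v => S v ^ 2) N ≤ Q / 2 := by
    rw [h2]
    have e1 : ∀ k l, c k * c l * mean K (fun v => u k v * u l v) N ≤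
        (if k = l then 3 / 8 * c k ^ 2 else 0) + δ * ((c k ^ 2 + c l ^ 2) / 2) := by
      intro k l
      have e3 : 0 ≤ δ * ((c k ^ 2 + c l ^ 2) / 2) := by positivity
      by_cases hkl : k = l
      · subst hkl
        rw [if_pos rfl]
        have e2 : mean K (fun v => u k v * u k v) N ≤ 3 / 8 := by
          have := hd k
          simpa [pow_two] using this
        have e4 : c k * c k * mean K (fun v => u k v * u k v) N ≤ c k * c k * (3 / 8) :=
          mul_le_mul_of_nonneg_left e2 (mul_self_nonneg _)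
        nlinarith
      · rw [if_neg hkl, zero_add]
        have e2 := ho k l hkl
        have e4 : c k * c l * mean K (fun v => u k v * u l v) N ≤ |c k * c l| * δ := by
          refine (le_abs_self _).trans ?_
          rw [abs_mul]
          exact mul_le_mul_of_nonneg_left e2 (abs_nonneg _)
        have e5 : |c k * c l| ≤ (c k ^ 2 + c l ^ 2) / 2 := by
          rw [abs_mul]
          nlinarith [sq_nonneg (|c k| - |c l|), sq_abs (c k), sq_abs (c l)]
        have e6 : |c k * c l| * δ ≤ (c k ^ 2 + c l ^ 2) / 2 * δ :=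
          mul_le_mul_of_nonneg_right e5 hδ0.le
        linarith
    refine (Finset.sum_le_sum fun k _ => Finset.sum_le_sum fun l _ => e1 k l).trans ?_
    have e2 : ∑ k, ∑ l, ((if k = l then 3 / 8 * c k ^ 2 else 0) +
        δ * ((c k ^ 2 + c l ^ 2) / 2)) = 3 / 8 * Q + δ * Fintype.card κ * Q := by
      simp_rw [Finset.sum_add_distrib]
      have e3 : ∑ k, ∑ l, (if k = l then 3 / 8 * c k ^ 2 else 0) = 3 / 8 * Q := by
        rw [hQ, Finset.mul_sum]
        refine Finset.sum_congr rfl fun k _ => ?_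
        rw [Finset.sum_ite_eq, if_pos (Finset.mem_univ _)]
      have e4 : ∑ k, ∑ l, δ * ((c k ^ 2 + c l ^ 2) / 2) = δ * Fintype.card κ * Q := by
        have e5 : ∀ k, ∑ l, δ * ((c k ^ 2 + c l ^ 2) / 2) =
            δ / 2 * (Fintype.card κ * c k ^ 2 + Q) := by
          intro k
          rw [← Finset.mul_sum, ← Finset.sum_div, Finset.sum_add_distrib, Finset.sum_const,
            Finset.card_univ, nsmul_eq_mul, ← hQ]
          ring
        simp_rw [e5]
        rw [← Finset.mul_sum, Finset.sum_add_distrib, ← Finset.mul_sum, ← hQ, Finset.sum_const,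
          Finset.card_univ, nsmul_eq_mul]
        ring
      rw [e3, e4]
    rw [e2]
    have := mul_le_mul_of_nonneg_right hδ1 hQ0
    linarith
  have h4 : mean K (fun v => g v ^ 2) N ≤ M ^ 2 := by
    refine (le_abs_self _).trans (mean_abs _ (by positivity) (fun v => ?_) N)
    rw [abs_of_nonneg (sq_nonneg _), ← sq_abs]
    exact pow_le_pow_left₀ (abs_nonneg _) (hg v) 2
  have h5 := mean_cs g S N
  rw [h1] at h5
  have h6 : Q ^ 2 ≤ M ^ 2 * (Q / 2) := by
    refine h5.trans (mul_le_mul h4 h3 ?_ (by positivity))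
    exact (le_of_eq (by
      have : mean K (fun _ => (0 : ℝ)) N = 0 := by
        rw [mean_upto]
        simp
      exact this.symm)).trans (mean_mono (fun v => sq_nonneg _) N)
  rcases hQ0.eq_or_lt with h | h
  · rw [← h]
    positivity
  · nlinarith

section
variable {κ : Type} [Fintype κ] {Γ : κ → Type} [∀ k, Group (Γ k)] [∀ k, Fintype (Γ k)]
  (r : ∀ k, GK K →* Γ k)

/-- linearly disjoint finite Galois extensions -/
structure Disj : Prop where
  surj : ∀ k, Function.Surjective (r k)
  pair : ∀ k l, k ≠ l → Function.Surjective ((r k).prod (r l))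
  isOpen : ∀ k, IsOpen ((r k).ker : Set (GK K))

theorem ev_gram (hr : Disj r) (σ : HeightOneSpectrum (𝓞 K) → GK K) (hσ : ∀ v, IsFrob v (σ v)) :
    ∀ᶠ N : ℕ in atTop, (∀ k (A : Set (Γ k)), Inv A →
      mean K (fun v => cen A (r k (σ v)) ^ 2) N ≤ 3 / 8) ∧
      ∀ k l, k ≠ l → ∀ (A : Set (Γ k)) (B : Set (Γ l)), Inv A → Inv B →
      |mean K (fun v => cen A (r k (σ v)) * cen B (r l (σ v))) N| ≤
        1 / (8 * (Fintype.card κ + 1)) := by
  classical
  refine Filter.Eventually.and ?_ ?_
  · rw [eventually_all]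
    intro k
    rw [eventually_all]
    intro A
    by_cases hA : Inv A
    · have h1 := frob_mean (r k) (hr.surj k) (hr.isOpen k) (fun γ => cen A γ ^ 2)
        (fun a g => by simp only [cen_conj hA]) σ hσ
      have h2 := (tendsto_order.1 h1).2 (3 / 8) (lt_of_le_of_lt (cen_sq A) (by norm_num))
      filter_upwards [h2] with N h2 _
      exact h2.le
    · exact Eventually.of_forall fun _ h => absurd h hA
  · rw [eventually_all]
    intro k
    rw [eventually_all]
    intro l
    by_cases hkl : k = l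
    · exact Eventually.of_forall fun _ h => absurd hkl h
    have : ∀ᶠ N : ℕ in atTop, ∀ (A : Set (Γ k)) (B : Set (Γ l)), Inv A → Inv B →
      |mean K (fun v => cen A (r k (σ v)) * cen B (r l (σ v))) N| ≤
        1 / (8 * (Fintype.card κ + 1)) := by
      rw [eventually_all]
      intro A
      rw [eventually_all]
      intro B
      by_cases hA : Inv A
      swap
      · exact Eventually.of_forall fun _ h => absurd h hA
      by_cases hB : Inv B
      swap
      · exact Eventually.of_forall fun _ _ h => absurd h hB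
      have h1 := frob_pair (r k) (r l) (hr.pair k l hkl) (hr.isOpen k) (hr.isOpen l) (cen A)
        (cen_conj hA) (cen B) (cen_conj hB) σ hσ
      rw [cen_sum, zero_div, zero_mul] at h1
      have h2 := h1.abs
      rw [abs_zero] at h2
      have h3 := (tendsto_order.1 h2).2 (1 / (8 * (Fintype.card κ + 1))) (by positivity)
      filter_upwards [h3] with N h3 _ _
      exact h3.le
    filter_upwards [this] with N h _
    exact h

open Classical in
/-- few `k` are correlated with `g` -/
theorem few_bad (hr : Disj r) (σ : HeightOneSpectrum (𝓞 K) → GK K) (hσ : ∀ v, IsFrob v (σ v)) :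
    ∀ᶠ N : ℕ in atTop, ∀ (g : HeightOneSpectrum (𝓞 K) → ℝ) (M η : ℝ), 0 ≤ M →
      (∀ v, |g v| ≤ M) → 0 < η →
      ((Finset.univ.filter fun k => ∃ A : Set (Γ k), Inv A ∧
        η < |mean K (fun v => g v * cen A (r k (σ v))) N|).card : ℝ) ≤ M ^ 2 / (2 * η ^ 2) := by
  filter_upwards [ev_gram r hr σ hσ] with N hN g M η hM hg hη
  obtain ⟨hd, ho⟩ := hN
  set bad := Finset.univ.filter fun k => ∃ A : Set (Γ k), Inv A ∧
        η < |mean K (fun v => g v * cen A (r k (σ v))) N| with hbad
  have hinv : ∀ k, Inv (∅ : Set (Γ k)) := fun k a g => by simp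
  have hch : ∀ k, ∃ A : Set (Γ k), Inv A ∧ (k ∈ bad →
      η < |mean K (fun v => g v * cen A (r k (σ v))) N|) := by
    intro k
    by_cases hk : k ∈ bad
    · obtain ⟨A, hA, h⟩ := (Finset.mem_filter.1 hk).2
      exact ⟨A, hA, fun _ => h⟩
    · exact ⟨∅, hinv k, fun h => absurd h hk⟩
  choose A hA hbA using hch
  have h1 := bessel (fun k v => cen (A k) (r k (σ v))) g hM hg N (fun k => hd k (A k) (hA k))
    (fun k l hkl => ho k l hkl (A k) (A l) (hA k) (hA l))
  have h2 : (bad.card : ℝ) * η ^ 2 ≤ M ^ 2 / 2 := by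
    refine le_trans ?_ h1
    rw [← nsmul_eq_mul, ← Finset.sum_const]
    refine (Finset.sum_le_sum fun k hk => ?_).trans
      (Finset.sum_le_sum_of_subset_of_nonneg (Finset.subset_univ bad) fun k _ _ => sq_nonneg _)
    have h3 := hbA k hk
    rw [← sq_abs (mean K (fun v => g v * cen (A k) (r k (σ v))) N)]
    exact pow_le_pow_left₀ hη.le h3.le 2
  rw [le_div_iff₀ (by positivity)]
  linarith

end

end

end Pool.Agent.R386.JL
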