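import Pool.Agent.R386.JL.Joint

/-! The joint law of a sequence and the Frobenius elements of linearly disjoint fields. -/

set_option autoImplicit false

namespace Pool.Agent.R386.JL

open Filter Topology NumberField IsDedekindDomain
open Pool.Agent.W529.ST (mean mean_def)
open Pool.Agent.W401.Cheb (GK IsFrob)

section
variable {K : Type} [Field K] [NumberField K]
variable {κ : Type} [Fintype κ] {Γ : κ → Type} [∀ k, Group (Γ k)] [∀ k, Fintype (Γ k)]
  (r : ∀ k, GK K →* Γ k)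

open Classical in
/-- the element of the net -/
noncomputable def J {X : Type} (t : Finset (X → ℝ)) (ε : ℝ) (h : X → ℝ) : X → ℝ :=
  if H : ∃ g ∈ t, ∀ a, |h a - g a| ≤ ε then H.choose else h

theorem J_spec {X : Type} {t : Finset (X → ℝ)} {ε : ℝ} {h : X → ℝ}
    (H : ∃ g ∈ t, ∀ a, |h a - g a| ≤ ε) : J t ε h ∈ t ∧ ∀ a, |h a - J t ε h a| ≤ ε := by
  unfold J
  rw [dif_pos H]
  exact H.choose_spec

theorem key {Δ : Type} [Group Δ] [Fintype Δ] {X : Type} (t : Finset (X → ℝ)) {ε : ℝ} (hε : 0 < ε)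
    (F : Δ → X → ℝ) (hF : ∀ γ, ∃ g ∈ t, ∀ a, |F γ a - g a| ≤ ε / 4)
    (hcl : ∀ γ δ, F (δ * γ * δ⁻¹) = F γ) (s : HeightOneSpectrum (𝓞 K) → Δ)
    (x : HeightOneSpectrum (𝓞 K) → X) (N : ℕ)
    (hsmall : ∀ g ∈ t, ∀ A : Set Δ, Inv A →
      |mean K (fun v => g (x v) * cen A (s v)) N| ≤ ε / (2 * t.card)) :
    |mean K (fun v => F (s v) (x v)) N -
      mean K (fun v => (∑ γ, F γ (x v)) / (Fintype.card Δ : ℝ)) N| ≤ ε := by
  classical
  have hc := card_pos' Δ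
  have hJ : ∀ γ, J t (ε / 4) (F γ) ∈ t ∧ ∀ a, |F γ a - J t (ε / 4) (F γ) a| ≤ ε / 4 :=
    fun γ => J_spec (hF γ)
  have ht : 0 < t.card := Finset.card_pos.2 ⟨_, (hJ 1).1⟩
  have ht' : (0 : ℝ) < t.card := by exact_mod_cast ht
  let A : (X → ℝ) → Set Δ := fun g => {γ | J t (ε / 4) (F γ) = g}
  have hA : ∀ g, Inv (A g) := by
    intro g γ δ
    show J t (ε / 4) (F (δ * γ * δ⁻¹)) = g ↔ J t (ε / 4) (F γ) = g
    rw [hcl]
  have hdec : ∀ γ a, J t (ε / 4) (F γ) a = ∑ g ∈ t, g a * (if γ ∈ A g then (1 : ℝ) else 0) := by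
    intro γ a
    have : ∀ g ∈ t, g a * (if γ ∈ A g then (1 : ℝ) else 0) =
        if J t (ε / 4) (F γ) = g then g a else 0 := by
      intro g _
      by_cases h : J t (ε / 4) (F γ) = g
      · rw [if_pos h, if_pos (show γ ∈ A g from h), mul_one]
      · rw [if_neg h, if_neg (show γ ∉ A g from h), mul_zero]
    rw [Finset.sum_congr rfl this, Finset.sum_ite_eq, if_pos (hJ γ).1]
  have hcen : ∀ γ a, J t (ε / 4) (F γ) a - (∑ δ, J t (ε / 4) (F δ) a) / (Fintype.card Δ : ℝ) =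
      ∑ g ∈ t, g a * cen (A g) γ := by
    intro γ a
    rw [hdec]
    simp_rw [hdec]
    rw [Finset.sum_comm, Finset.sum_div, ← Finset.sum_sub_distrib]
    refine Finset.sum_congr rfl fun g _ => ?_
    unfold cen
    rw [← Finset.mul_sum, mul_div_assoc, mul_sub]
  set E : HeightOneSpectrum (𝓞 K) → ℝ := fun v => (F (s v) (x v) - J t (ε / 4) (F (s v)) (x v)) -
    (∑ δ, (F δ (x v) - J t (ε / 4) (F δ) (x v))) / (Fintype.card Δ : ℝ) with hE
  have hE1 : ∀ v, |E v| ≤ ε / 2 := by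
    intro v
    rw [hE]
    refine (abs_sub _ _).trans ?_
    have e1 := (hJ (s v)).2 (x v)
    have e2 : |(∑ δ, (F δ (x v) - J t (ε / 4) (F δ) (x v))) / (Fintype.card Δ : ℝ)| ≤ ε / 4 := by
      rw [abs_div, abs_of_pos hc, div_le_iff₀ hc]
      refine (Finset.abs_sum_le_sum_abs _ _).trans
        ((Finset.sum_le_sum fun δ _ => (hJ δ).2 (x v)).trans ?_)
      rw [Finset.sum_const, Finset.card_univ, nsmul_eq_mul, mul_comm]
    linarith
  have hsplit : (fun v => F (s v) (x v) - (∑ γ, F γ (x v)) / (Fintype.card Δ : ℝ)) =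
      fun v => E v + ∑ g ∈ t, g (x v) * cen (A g) (s v) := by
    funext v
    rw [← hcen, hE]
    simp only
    rw [Finset.sum_sub_distrib, sub_div]
    ring
  rw [← mean_sub', hsplit, mean_add, mean_sum]
  refine (abs_add_le _ _).trans ?_
  have h1 := mean_abs E (by positivity) hE1 N
  have h2 : |∑ g ∈ t, mean K (fun v => g (x v) * cen (A g) (s v)) N| ≤ ε / 2 := by
    refine (Finset.abs_sum_le_sum_abs _ _).trans
      ((Finset.sum_le_sum fun g hg => hsmall g hg (A g) (hA g)).trans ?_)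
    rw [Finset.sum_const, nsmul_eq_mul]
    have : (t.card : ℝ) * (ε / (2 * t.card)) = ε / 2 := by
      field_simp
    rw [this]
  linarith

open Classical in
theorem joint_law (hr : Disj r) (σ : HeightOneSpectrum (𝓞 K) → GK K) (hσ : ∀ v, IsFrob v (σ v))
    {X : Type} (t : Finset (X → ℝ)) {M ε : ℝ} (hM0 : 0 ≤ M) (hM : ∀ g ∈ t, ∀ a, |g a| ≤ M)
    (hε : 0 < ε) :
    ∀ᶠ N : ℕ in atTop, ∀ x : HeightOneSpectrum (𝓞 K) → X,
      ((Finset.univ.filter fun k => ∃ F : Γ k → X → ℝ,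
        (∀ γ, ∃ g ∈ t, ∀ a, |F γ a - g a| ≤ ε / 4) ∧ (∀ γ δ, F (δ * γ * δ⁻¹) = F γ) ∧
        ε < |mean K (fun v => F (r k (σ v)) (x v)) N -
          mean K (fun v => (∑ γ, F γ (x v)) / (Fintype.card (Γ k) : ℝ)) N|).card : ℝ) ≤
        2 * M ^ 2 * t.card ^ 3 / ε ^ 2 := by
  filter_upwards [few_bad r hr σ hσ] with N hN x
  by_cases ht : t.card = 0
  · rw [Finset.card_eq_zero] at ht
    subst ht
    have : (Finset.univ.filter fun k => ∃ F : Γ k → X → ℝ,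
        (∀ γ, ∃ g ∈ (∅ : Finset (X → ℝ)), ∀ a, |F γ a - g a| ≤ ε / 4) ∧
        (∀ γ δ, F (δ * γ * δ⁻¹) = F γ) ∧
        ε < |mean K (fun v => F (r k (σ v)) (x v)) N -
          mean K (fun v => (∑ γ, F γ (x v)) / (Fintype.card (Γ k) : ℝ)) N|) = ∅ := by
      rw [Finset.filter_eq_empty_iff]
      rintro k _ ⟨F, h, _⟩
      obtain ⟨g, hg, _⟩ := h 1
      simp at hg
    rw [this]
    simp
  have ht' : (0 : ℝ) < t.card := by exact_mod_cast Nat.pos_of_ne_zero ht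
  set η : ℝ := ε / (2 * t.card) with hη
  have hη0 : 0 < η := by positivity
  have hsub : (Finset.univ.filter fun k => ∃ F : Γ k → X → ℝ,
        (∀ γ, ∃ g ∈ t, ∀ a, |F γ a - g a| ≤ ε / 4) ∧ (∀ γ δ, F (δ * γ * δ⁻¹) = F γ) ∧
        ε < |mean K (fun v => F (r k (σ v)) (x v)) N -
          mean K (fun v => (∑ γ, F γ (x v)) / (Fintype.card (Γ k) : ℝ)) N|) ⊆
      t.biUnion fun g => Finset.univ.filter fun k => ∃ A : Set (Γ k), Inv A ∧
        η < |mean K (fun v => g (x v) * cen A (r k (σ v))) N| := by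
    intro k hk
    obtain ⟨F, hF, hcl, hdev⟩ := (Finset.mem_filter.1 hk).2
    by_contra hno
    have hsmall : ∀ g ∈ t, ∀ A : Set (Γ k), Inv A →
        |mean K (fun v => g (x v) * cen A (r k (σ v))) N| ≤ ε / (2 * t.card) := by
      intro g hg A hA
      by_contra h
      apply hno
      rw [Finset.mem_biUnion]
      exact ⟨g, hg, Finset.mem_filter.2 ⟨Finset.mem_univ _, A, hA, not_le.1 h⟩⟩
    have := key t hε F hF hcl (fun v => r k (σ v)) x N hsmall
    linarith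
  have h1 : ((Finset.univ.filter fun k => ∃ F : Γ k → X → ℝ,
        (∀ γ, ∃ g ∈ t, ∀ a, |F γ a - g a| ≤ ε / 4) ∧ (∀ γ δ, F (δ * γ * δ⁻¹) = F γ) ∧
        ε < |mean K (fun v => F (r k (σ v)) (x v)) N -
          mean K (fun v => (∑ γ, F γ (x v)) / (Fintype.card (Γ k) : ℝ)) N|).card : ℝ) ≤
      ∑ g ∈ t, ((Finset.univ.filter fun k => ∃ A : Set (Γ k), Inv A ∧
        η < |mean K (fun v => g (x v) * cen A (r k (σ v))) N|).card : ℝ) := by
    exact_mod_cast (Finset.card_le_card hsub).trans Finset.card_biUnion_le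
  refine h1.trans ((Finset.sum_le_sum fun g hg =>
    hN (fun v => g (x v)) M η hM0 (fun v => hM g hg _) hη0).trans ?_)
  rw [Finset.sum_const, nsmul_eq_mul, hη]
  apply le_of_eq
  field_simp

/-- net and bound -/
theorem exists_net' {X : Type} [TopologicalSpace X] [CompactSpace X] {𝓕 : Set C(X, ℝ)}
    (h𝓕 : IsCompact 𝓕) {δ : ℝ} (hδ : 0 < δ) :
    ∃ (t : Finset C(X, ℝ)) (M : ℝ), 0 ≤ M ∧ (t : Set C(X, ℝ)) ⊆ 𝓕 ∧
      (∀ f ∈ 𝓕, ∀ a, |f a| ≤ M) ∧ ∀ f ∈ 𝓕, ∃ g ∈ t, ∀ a, |f a - g a| ≤ δ := by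
  obtain ⟨s, hs, hfin, hcov⟩ := h𝓕.finite_cover_balls hδ
  obtain ⟨B, hB⟩ := h𝓕.isBounded.exists_norm_le
  refine ⟨hfin.toFinset, max B 0, le_max_right _ _, by simpa using hs, fun f hf a => ?_,
    fun f hf => ?_⟩
  · have h1 := f.norm_coe_le_norm a
    rw [Real.norm_eq_abs] at h1
    exact h1.trans ((hB f hf).trans (le_max_left _ _))
  obtain ⟨g, hg, hfg⟩ := Set.mem_iUnion₂.1 (hcov hf)
  refine ⟨g, by simpa using hg, fun a => ?_⟩
  have := (ContinuousMap.dist_lt_iff hδ).1 (Metric.mem_ball.1 hfg) a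
  rw [Real.dist_eq] at this
  exact this.le

end

open Classical in
/-- the joint law, for a compact set of functions -/
theorem law (X : Type) [TopologicalSpace X] [CompactSpace X] (𝓕 : Set C(X, ℝ))
    (h𝓕 : IsCompact 𝓕) {ε : ℝ} (hε : 0 < ε) : ∃ B : ℕ,
    ∀ (K : Type) [Field K] [NumberField K] (κ : Type) [Fintype κ] (Γ : κ → Type)
      [∀ k, Group (Γ k)] [∀ k, Fintype (Γ k)] (r : ∀ k, GK K →* Γ k), Disj r →
      ∀ (σ : HeightOneSpectrum (𝓞 K) → GK K), (∀ v, IsFrob v (σ v)) →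
      ∀ᶠ N : ℕ in atTop, ∀ x : HeightOneSpectrum (𝓞 K) → X,
      (Finset.univ.filter fun k => ∃ F : Γ k → C(X, ℝ), (∀ γ, F γ ∈ 𝓕) ∧
        (∀ γ δ, F (δ * γ * δ⁻¹) = F γ) ∧
        ε < |mean K (fun v => F (r k (σ v)) (x v)) N -
          mean K (fun v => (∑ γ, F γ (x v)) / (Fintype.card (Γ k) : ℝ)) N|).card ≤ B := by
  obtain ⟨t, M, hM0, ht, hM, hnet⟩ := exists_net' h𝓕 (show 0 < ε / 4 by positivity)
  set t' : Finset (X → ℝ) := Finset.image (fun g : C(X, ℝ) => (⇑g : X → ℝ)) t with ht'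
  obtain ⟨B, hB⟩ := exists_nat_ge (2 * M ^ 2 * t'.card ^ 3 / ε ^ 2)
  refine ⟨B, fun K _ _ κ _ Γ _ _ r hr σ hσ => ?_⟩
  filter_upwards [joint_law r hr σ hσ t' hM0 (fun g hg a => by
    obtain ⟨f, hf, rfl⟩ := Finset.mem_image.1 hg
    exact hM f (ht hf) a) hε] with N hN x
  have h1 := (hN x).trans hB
  have h2 : (Finset.univ.filter fun k => ∃ F : Γ k → C(X, ℝ), (∀ γ, F γ ∈ 𝓕) ∧
        (∀ γ δ, F (δ * γ * δ⁻¹) = F γ) ∧
        ε < |mean K (fun v => F (r k (σ v)) (x v)) N -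
          mean K (fun v => (∑ γ, F γ (x v)) / (Fintype.card (Γ k) : ℝ)) N|) ⊆
      (Finset.univ.filter fun k => ∃ F : Γ k → X → ℝ,
        (∀ γ, ∃ g ∈ t', ∀ a, |F γ a - g a| ≤ ε / 4) ∧ (∀ γ δ, F (δ * γ * δ⁻¹) = F γ) ∧
        ε < |mean K (fun v => F (r k (σ v)) (x v)) N -
          mean K (fun v => (∑ γ, F γ (x v)) / (Fintype.card (Γ k) : ℝ)) N|) := by
    intro k hk
    obtain ⟨F, hF, hcl, hdev⟩ := (Finset.mem_filter.1 hk).2
    refine Finset.mem_filter.2 ⟨Finset.mem_univ _, fun γ => (F γ : X → ℝ), fun γ => ?_,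
      fun γ δ => by
        show (⇑(F (δ * γ * δ⁻¹)) : X → ℝ) = ⇑(F γ)
        rw [hcl], hdev⟩
    obtain ⟨g, hg, h⟩ := hnet (F γ) (hF γ)
    exact ⟨g, Finset.mem_image.2 ⟨g, hg, rfl⟩, h⟩
  have h3 := Finset.card_le_card h2
  have h4 : ((Finset.univ.filter fun k => ∃ F : Γ k → X → ℝ,
        (∀ γ, ∃ g ∈ t', ∀ a, |F γ a - g a| ≤ ε / 4) ∧ (∀ γ δ, F (δ * γ * δ⁻¹) = F γ) ∧
        ε < |mean K (fun v => F (r k (σ v)) (x v)) N -
          mean K (fun v => (∑ γ, F γ (x v)) / (Fintype.card (Γ k) : ℝ)) N|).card) ≤ B := by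
    exact_mod_cast h1
  exact h3.trans h4

open MeasureTheory in
/-- uniform convergence on compact sets of functions -/
theorem unif (X : Type) [TopologicalSpace X] [CompactSpace X] [MeasurableSpace X] [BorelSpace X]
    (𝓕 : Set C(X, ℝ)) (h𝓕 : IsCompact 𝓕) {ε : ℝ} (hε : 0 < ε) (μ : Measure X)
    [IsProbabilityMeasure μ] {K : Type} [Field K] [NumberField K]
    (x : HeightOneSpectrum (𝓞 K) → X)
    (hx : ∀ f ∈ 𝓕, Tendsto (mean K fun v => f (x v)) atTop (𝓝 (∫ a, f a ∂μ))) :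
    ∀ᶠ N : ℕ in atTop, ∀ f ∈ 𝓕, |mean K (fun v => f (x v)) N - ∫ a, f a ∂μ| ≤ ε := by
  classical
  obtain ⟨t, M, hM0, ht, hM, hnet⟩ := exists_net' h𝓕 (show 0 < ε / 3 by positivity)
  have h1 : ∀ᶠ N : ℕ in atTop, ∀ g ∈ t, |mean K (fun v => g (x v)) N - ∫ a, g a ∂μ| ≤ ε / 3 := by
    rw [Filter.eventually_all_finset]
    intro g hg
    have h2 := (hx g (ht hg)).sub_const (∫ a, g a ∂μ)
    rw [sub_self] at h2
    have h3 := h2.abs
    rw [abs_zero] at h3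
    filter_upwards [(tendsto_order.1 h3).2 (ε / 3) (by positivity)] with N hN
    exact hN.le
  filter_upwards [h1] with N hN f hf
  obtain ⟨g, hg, hfg⟩ := hnet f hf
  have e1 : |mean K (fun v => f (x v)) N - mean K (fun v => g (x v)) N| ≤ ε / 3 := by
    rw [← mean_sub']
    exact mean_abs _ (by positivity) (fun v => hfg _) _
  have e2 : |∫ a, g a ∂μ - ∫ a, f a ∂μ| ≤ ε / 3 := by
    have hint : ∀ h : C(X, ℝ), Integrable h μ := fun h =>
      h.continuous.integrable_of_hasCompactSupport (HasCompactSupport.of_compactSpace _)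
    rw [← integral_sub (hint g) (hint f)]
    have e3 := norm_integral_le_of_norm_le_const (μ := μ) (f := fun a => g a - f a) (C := ε / 3)
      (Filter.Eventually.of_forall fun a => by
        rw [Real.norm_eq_abs, abs_sub_comm]
        exact hfg a)
    rw [Real.norm_eq_abs] at e3
    simpa using e3
  have e3 := hN g hg
  have e4 : mean K (fun v => f (x v)) N - ∫ a, f a ∂μ =
      (mean K (fun v => f (x v)) N - mean K (fun v => g (x v)) N) +
      (mean K (fun v => g (x v)) N - ∫ a, g a ∂μ) + (∫ a, g a ∂μ - ∫ a, f a ∂μ) := by ring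
  rw [e4]
  refine (abs_add_le _ _).trans ?_
  have e5 := abs_add_le (mean K (fun v => f (x v)) N - mean K (fun v => g (x v)) N)
    (mean K (fun v => g (x v)) N - ∫ a, g a ∂μ)
  linarith

end Pool.Agent.R386.JL
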