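import Pool.Agent.R386.JL.Law

/-! Twists by finite groups commuting with a sequence in a compact group. -/

set_option autoImplicit false

namespace Pool.Agent.R386.JL

open Filter Topology NumberField IsDedekindDomain
open Pool.Agent.W529.ST (mean mean_def)
open Pool.Agent.W401.Cheb (GK IsFrob)

section
variable {K : Type} [Field K] [NumberField K]
variable {κ : Type} [Fintype κ] {Γ : κ → Type} [∀ k, Group (Γ k)] [∀ k, Fintype (Γ k)]
  (r : ∀ k, GK K →* Γ k)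

open Classical in
/-- the joint law, uniformly in the space -/
theorem joint_law' (hr : Disj r) (σ : HeightOneSpectrum (𝓞 K) → GK K) (hσ : ∀ v, IsFrob v (σ v)) :
    ∀ᶠ N : ℕ in atTop, ∀ (X : Type) (t : Finset (X → ℝ)) (M ε : ℝ), 0 ≤ M →
      (∀ g ∈ t, ∀ a, |g a| ≤ M) → 0 < ε → ∀ x : HeightOneSpectrum (𝓞 K) → X,
      ((Finset.univ.filter fun k => ∃ F : Γ k → X → ℝ,
        (∀ γ, ∃ g ∈ t, ∀ a, |F γ a - g a| ≤ ε / 4) ∧ (∀ γ δ, F (δ * γ * δ⁻¹) = F γ) ∧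
        ε < |mean K (fun v => F (r k (σ v)) (x v)) N -
          mean K (fun v => (∑ γ, F γ (x v)) / (Fintype.card (Γ k) : ℝ)) N|).card : ℝ) ≤
        2 * M ^ 2 * t.card ^ 3 / ε ^ 2 := by
  filter_upwards [few_bad r hr σ hσ] with N hN X t M ε hM0 hM hε x
  by_cases ht : t.card = 0
  · rw [Finset.card_eq_zero] at ht
    subst ht
    have : (Finset.univ.filter fun k => ∃ F : Γ k → X → ℝ,
        (∀ γ, ∃ g ∈ (∅ : Finset (X → ℝ)), ∀ a, |F γ a - g a| ≤ ε / 4) ∧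
        (∀ γ δ, F (δ * γ * δ⁻¹) = F γ) ∧
        ε < |mean K (fun v => F (r k (σ v)) (x v)) N -
          mean K (fun v => (∑ γ, F γ (x v)) / (Fintype.card (Γ k) : ℝ)) N|) = ∅ := by
      rw [Finset.filter_eq_empty_iff]
      rintro k _ ⟨F, h, _⟩
      obtain ⟨g, hg, _⟩ := h 1
      simp at hg
    rw [this]
    simp
  have ht' : (0 : ℝ) < t.card := by exact_mod_cast Nat.pos_of_ne_zero ht
  set η : ℝ := ε / (2 * t.card) with hη
  have hη0 : 0 < η := by positivity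
  have hsub : (Finset.univ.filter fun k => ∃ F : Γ k → X → ℝ,
        (∀ γ, ∃ g ∈ t, ∀ a, |F γ a - g a| ≤ ε / 4) ∧ (∀ γ δ, F (δ * γ * δ⁻¹) = F γ) ∧
        ε < |mean K (fun v => F (r k (σ v)) (x v)) N -
          mean K (fun v => (∑ γ, F γ (x v)) / (Fintype.card (Γ k) : ℝ)) N|) ⊆
      t.biUnion fun g => Finset.univ.filter fun k => ∃ A : Set (Γ k), Inv A ∧
        η < |mean K (fun v => g (x v) * cen A (r k (σ v))) N| := by
    intro k hk
    obtain ⟨F, hF, hcl, hdev⟩ := (Finset.mem_filter.1 hk).2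
    by_contra hno
    have hsmall : ∀ g ∈ t, ∀ A : Set (Γ k), Inv A →
        |mean K (fun v => g (x v) * cen A (r k (σ v))) N| ≤ ε / (2 * t.card) := by
      intro g hg A hA
      by_contra h
      apply hno
      rw [Finset.mem_biUnion]
      exact ⟨g, hg, Finset.mem_filter.2 ⟨Finset.mem_univ _, A, hA, not_le.1 h⟩⟩
    have := key t hε F hF hcl (fun v => r k (σ v)) x N hsmall
    linarith
  have h1 : ((Finset.univ.filter fun k => ∃ F : Γ k → X → ℝ,
        (∀ γ, ∃ g ∈ t, ∀ a, |F γ a - g a| ≤ ε / 4) ∧ (∀ γ δ, F (δ * γ * δ⁻¹) = F γ) ∧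
        ε < |mean K (fun v => F (r k (σ v)) (x v)) N -
          mean K (fun v => (∑ γ, F γ (x v)) / (Fintype.card (Γ k) : ℝ)) N|).card : ℝ) ≤
      ∑ g ∈ t, ((Finset.univ.filter fun k => ∃ A : Set (Γ k), Inv A ∧
        η < |mean K (fun v => g (x v) * cen A (r k (σ v))) N|).card : ℝ) := by
    exact_mod_cast (Finset.card_le_card hsub).trans Finset.card_biUnion_le
  refine h1.trans ((Finset.sum_le_sum fun g hg =>
    hN (fun v => g (x v)) M η hM0 (fun v => hM g hg _) hη0).trans ?_)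
  rw [Finset.sum_const, nsmul_eq_mul, hη]
  apply le_of_eq
  field_simp

open Classical in
/-- the invariance under conjugation is only needed at the points of the sequence -/
theorem joint_law2 (hr : Disj r) (σ : HeightOneSpectrum (𝓞 K) → GK K) (hσ : ∀ v, IsFrob v (σ v)) :
    ∀ᶠ N : ℕ in atTop, ∀ (X : Type) (t : Finset (X → ℝ)) (M ε : ℝ), 0 ≤ M →
      (∀ g ∈ t, ∀ a, |g a| ≤ M) → 0 < ε → ∀ x : HeightOneSpectrum (𝓞 K) → X,
      ((Finset.univ.filter fun k => ∃ F : Γ k → X → ℝ,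
        (∀ γ, ∃ g ∈ t, ∀ a, |F γ a - g a| ≤ ε / 4) ∧
        (∀ γ δ v, F (δ * γ * δ⁻¹) (x v) = F γ (x v)) ∧
        ε < |mean K (fun v => F (r k (σ v)) (x v)) N -
          mean K (fun v => (∑ γ, F γ (x v)) / (Fintype.card (Γ k) : ℝ)) N|).card : ℝ) ≤
        2 * M ^ 2 * t.card ^ 3 / ε ^ 2 := by
  filter_upwards [joint_law' r hr σ hσ] with N hN X t M ε hM0 hM hε x
  set t' : Finset (Set.range x → ℝ) := Finset.image (fun (g : X → ℝ) (a : Set.range x) => g a) t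
    with ht'
  set x' : HeightOneSpectrum (𝓞 K) → Set.range x := fun v => ⟨x v, v, rfl⟩ with hx'
  have h1 := hN (Set.range x) t' M ε hM0 (fun g hg a => by
    obtain ⟨f, hf, rfl⟩ := Finset.mem_image.1 hg
    exact hM f hf _) hε x'
  have h2 : (Finset.univ.filter fun k => ∃ F : Γ k → X → ℝ,
        (∀ γ, ∃ g ∈ t, ∀ a, |F γ a - g a| ≤ ε / 4) ∧
        (∀ γ δ v, F (δ * γ * δ⁻¹) (x v) = F γ (x v)) ∧
        ε < |mean K (fun v => F (r k (σ v)) (x v)) N -
          mean K (fun v => (∑ γ, F γ (x v)) / (Fintype.card (Γ k) : ℝ)) N|) ⊆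
      (Finset.univ.filter fun k => ∃ F : Γ k → Set.range x → ℝ,
        (∀ γ, ∃ g ∈ t', ∀ a, |F γ a - g a| ≤ ε / 4) ∧ (∀ γ δ, F (δ * γ * δ⁻¹) = F γ) ∧
        ε < |mean K (fun v => F (r k (σ v)) (x' v)) N -
          mean K (fun v => (∑ γ, F γ (x' v)) / (Fintype.card (Γ k) : ℝ)) N|) := by
    intro k hk
    obtain ⟨F, hF, hcl, hdev⟩ := (Finset.mem_filter.1 hk).2
    refine Finset.mem_filter.2 ⟨Finset.mem_univ _, fun γ a => F γ a, fun γ => ?_, fun γ δ => ?_,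
      hdev⟩
    · obtain ⟨g, hg, h⟩ := hF γ
      exact ⟨_, Finset.mem_image.2 ⟨g, hg, rfl⟩, fun a => h a⟩
    · funext a
      obtain ⟨_, v, rfl⟩ := a
      exact hcl γ δ v
  have h3 : (t'.card : ℝ) ≤ t.card := by exact_mod_cast Finset.card_image_le
  have h4 : 2 * M ^ 2 * (t'.card : ℝ) ^ 3 / ε ^ 2 ≤ 2 * M ^ 2 * (t.card : ℝ) ^ 3 / ε ^ 2 := by
    gcongr
  refine le_trans ?_ (h1.trans h4)
  exact_mod_cast Finset.card_le_card h2

end

open Classical in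
/-- twists by finite groups commuting with the sequence -/
theorem twist_law (G : Type) [Group G] [TopologicalSpace G] [IsTopologicalGroup G] [CompactSpace G]
    (𝓕 : Set C(G, ℝ)) (h𝓕 : IsCompact 𝓕) (hcf : ∀ f ∈ 𝓕, ∀ a b, f (b * a * b⁻¹) = f a)
    {ε : ℝ} (hε : 0 < ε) : ∃ B : ℕ,
    ∀ (K : Type) [Field K] [NumberField K] (κ : Type) [Fintype κ] (Γ : κ → Type)
      [∀ k, Group (Γ k)] [∀ k, Fintype (Γ k)] (r : ∀ k, GK K →* Γ k), Disj r →
      ∀ (σ : HeightOneSpectrum (𝓞 K) → GK K), (∀ v, IsFrob v (σ v)) →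
      ∀ᶠ N : ℕ in atTop, ∀ (x : HeightOneSpectrum (𝓞 K) → G) (ι : ∀ k, Γ k →* G),
      (∀ k γ v, x v * ι k γ = ι k γ * x v) →
      (Finset.univ.filter fun k => ∃ f ∈ 𝓕,
        ε < |mean K (fun v => f (x v * ι k (r k (σ v)))) N -
          mean K (fun v => (∑ γ, f (x v * ι k γ)) / (Fintype.card (Γ k) : ℝ)) N|).card ≤ B := by
  -- the translates
  let T : C(G, ℝ) × G → C(G, ℝ) := fun p => p.1.comp ⟨fun a => a * p.2, by fun_prop⟩
  have hT : Continuous T := by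
    refine ContinuousMap.continuous_of_continuous_uncurry _ ?_
    show Continuous fun q : (C(G, ℝ) × G) × G => q.1.1 (q.2 * q.1.2)
    exact continuous_eval.comp (by fun_prop : Continuous fun q : (C(G, ℝ) × G) × G =>
      (q.1.1, q.2 * q.1.2))
  have hcomp : IsCompact (T '' (𝓕 ×ˢ Set.univ)) := (h𝓕.prod isCompact_univ).image hT
  obtain ⟨t, M, hM0, ht, hM, hnet⟩ := exists_net' hcomp (show 0 < ε / 4 by positivity)
  set t' : Finset (G → ℝ) := Finset.image (fun g : C(G, ℝ) => (⇑g : G → ℝ)) t with ht'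
  obtain ⟨B, hB⟩ := exists_nat_ge (2 * M ^ 2 * t'.card ^ 3 / ε ^ 2)
  refine ⟨B, fun K _ _ κ _ Γ _ _ r hr σ hσ => ?_⟩
  filter_upwards [joint_law2 r hr σ hσ] with N hN x ι hcomm
  have h1 := (hN G t' M ε hM0 (fun g hg a => by
    obtain ⟨f, hf, rfl⟩ := Finset.mem_image.1 hg
    exact hM f (ht hf) a) hε x).trans hB
  have h2 : (Finset.univ.filter fun k => ∃ f ∈ 𝓕,
        ε < |mean K (fun v => f (x v * ι k (r k (σ v)))) N -
          mean K (fun v => (∑ γ, f (x v * ι k γ)) / (Fintype.card (Γ k) : ℝ)) N|) ⊆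
      (Finset.univ.filter fun k => ∃ F : Γ k → G → ℝ,
        (∀ γ, ∃ g ∈ t', ∀ a, |F γ a - g a| ≤ ε / 4) ∧
        (∀ γ δ v, F (δ * γ * δ⁻¹) (x v) = F γ (x v)) ∧
        ε < |mean K (fun v => F (r k (σ v)) (x v)) N -
          mean K (fun v => (∑ γ, F γ (x v)) / (Fintype.card (Γ k) : ℝ)) N|) := by
    intro k hk
    obtain ⟨f, hf, hdev⟩ := (Finset.mem_filter.1 hk).2
    refine Finset.mem_filter.2 ⟨Finset.mem_univ _, fun γ a => f (a * ι k γ), fun γ => ?_,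
      fun γ δ v => ?_, hdev⟩
    · obtain ⟨g, hg, h⟩ := hnet (T (f, ι k γ)) ⟨(f, ι k γ), ⟨hf, Set.mem_univ _⟩, rfl⟩
      exact ⟨g, Finset.mem_image.2 ⟨g, hg, rfl⟩, h⟩
    · show f (x v * ι k (δ * γ * δ⁻¹)) = f (x v * ι k γ)
      have e1 : x v * ι k (δ * γ * δ⁻¹) = ι k δ * (x v * ι k γ) * (ι k δ)⁻¹ := by
        rw [map_mul, map_mul, map_inv, ← mul_assoc, ← mul_assoc, hcomm k δ v, mul_assoc (ι k δ)]
      rw [e1, hcf f hf]
  have h3 := Finset.card_le_card h2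
  have h4 : (Finset.univ.filter fun k => ∃ F : Γ k → G → ℝ,
        (∀ γ, ∃ g ∈ t', ∀ a, |F γ a - g a| ≤ ε / 4) ∧
        (∀ γ δ v, F (δ * γ * δ⁻¹) (x v) = F γ (x v)) ∧
        ε < |mean K (fun v => F (r k (σ v)) (x v)) N -
          mean K (fun v => (∑ γ, F γ (x v)) / (Fintype.card (Γ k) : ℝ)) N|).card ≤ B := by
    exact_mod_cast h1
  exact h3.trans h4

end Pool.Agent.R386.JL
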